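import Mathlib
import Pool.Agent.Lib.MP_d6a497_nt.Mono

/-! For every even weight `w ≥ 6` other than `8` and `10`, the function `t ^ (w - 1) * X (i t)` is
decreasing on the positive reals, `X` being the depth-one extremal quasimodular form. -/

namespace Pool.Agent.Results.MP_d6a497_nt.Main

open UpperHalfPlane
open scoped MatrixGroups

/-- The point `i t` of the upper half plane. -/
noncomputable def iPt (t : ℝ) (ht : 0 < t) : ℍ := ⟨Complex.I * t, by simpa using ht⟩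

/-- `d_w = dim M_w + dim M_(w-2)` for the full modular group. -/
noncomputable def dimQ (w : ℕ) : ℕ :=
  Module.finrank ℂ (ModularForm 𝒮ℒ (w : ℤ)) + Module.finrank ℂ (ModularForm 𝒮ℒ ((w : ℤ) - 2))

/-- `X = f + E₂ g` with `f ∈ M_w`, `g ∈ M_(w-2)`, and the q-expansion of `X` is
`q ^ (d_w - 1) + O (q ^ d_w)`. -/
def IsExtremal (w : ℕ) (X : ℍ → ℂ) : Prop :=
  (∃ (f : ModularForm 𝒮ℒ (w : ℤ)) (g : ModularForm 𝒮ℒ ((w : ℤ) - 2)),
      X = ⇑f + EisensteinSeries.E2 * ⇑g) ∧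
    (∀ n < dimQ w - 1, (qExpansion 1 X).coeff n = 0) ∧ (qExpansion 1 X).coeff (dimQ w - 1) = 1

theorem result (w : ℕ) (hw : Even w) (h6 : 6 ≤ w) (h8 : w ≠ 8) (h10 : w ≠ 10) :
    ∃ X : ℍ → ℂ, IsExtremal w X ∧ (∀ Y, IsExtremal w Y → Y = X) ∧
      (∀ (t : ℝ) (ht : 0 < t), (X (iPt t ht)).im = 0) ∧
      ∀ (s t : ℝ) (hs : 0 < s) (ht : 0 < t), s < t →
        t ^ (w - 1) * (X (iPt t ht)).re ≤ s ^ (w - 1) * (X (iPt s hs)).re := by
  obtain ⟨X, hX, ho, hre, hD⟩ := Lib.MP_d6a497_nt.exists_form w hw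
  have hd : dimQ w - 1 = w / 6 := Lib.MP_d6a497_nt.dim_eq w hw (by omega)
  have hax : ∀ (t : ℝ) (ht : 0 < t), iPt t ht = Lib.MP_d6a497_nt.ax t :=
    fun t ht => (Lib.MP_d6a497_nt.ax_eq ht).symm
  refine ⟨X, ⟨Lib.MP_d6a497_nt.mf_of_good (by exact_mod_cast hw) hX, ?_, ?_⟩, ?_, ?_, ?_⟩
  · intro n hn
    exact ho.coeff_lt (hd ▸ hn)
  · rw [hd]; exact ho.coeff_eq
  · rintro Y ⟨⟨f, g, rfl⟩, h1, h2⟩
    have hY := Lib.MP_d6a497_nt.good_of_mf f g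
    obtain ⟨c, hc⟩ := hY.1
    have h3 := hc.of_coeff h1
    rw [h2, hd] at h3
    exact hY.unique w hw rfl hX h3 ho
  · intro t ht
    rw [hax]; exact hre h6 t ht
  · intro s t hs ht hst
    rw [hax, hax]
    refine Lib.MP_d6a497_nt.antitone_of hX.mdiff (fun u hu => ?_) hs hst.le
    rw [show ((w - 1 : ℕ) : ℤ) = (w : ℤ) - 1 by omega]
    exact hD h6 h8 h10 u hu

end Pool.Agent.Results.MP_d6a497_nt.Main
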